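import Pool.Agent.TH54.BExt
import Pool.Agent.TH54.BU.Iter
import Pool.Agent.Y321.HM.Ext
import Pool.Agent.Y321.HM.Gen
import Pool.Agent.Q87.TM.Quot

/-!
# MP_e69082_gt: a c-minimal group with a compact open normal subgroup whose discrete quotient is
not hereditarily minimal

The groups are the central extensions of free Burnside groups of infinite rank by `ℤ_p` of the
starting file `MP_adec7c_al.BurnsideQuotients`. They are hereditarily minimal, the centre is compact
and open, and the quotient by the centre is a discrete free Burnside group of infinite rank, which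
is not even minimal: the weakest topology for which the retractions on the subgroups generated by
finitely many letters are continuous is Hausdorff and not discrete.
-/

set_option autoImplicit false

namespace Pool.Agent.Results.MP_e69082_gt.QuotientNotMinimal

open Pool.Agent.TH54 Pool.Agent.TH54.BU Pool.Agent.Y321.HM

universe u

/-- a topological group is minimal if it has no strictly coarser Hausdorff group topology -/
def Minimal (G : Type u) [Group G] [τ : TopologicalSpace G] : Prop :=
  ∀ σ : TopologicalSpace G, @IsTopologicalGroup G σ _ → @T2Space G σ → τ ≤ σ → σ = τ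

/-- c-minimal: all closed subgroups are minimal -/
def CMinimal (G : Type u) [Group G] [TopologicalSpace G] : Prop :=
  ∀ H : Subgroup G, IsClosed (H : Set G) → Minimal H

/-- hereditarily minimal: all subgroups are minimal -/
def HereditarilyMinimal (G : Type u) [Group G] [TopologicalSpace G] : Prop :=
  ∀ H : Subgroup G, Minimal H

/-- minimality passes from the subgroup `⊤` to the group -/
theorem minimal_of_top {G : Type u} [Group G] [τ : TopologicalSpace G]
    (h : Minimal (⊤ : Subgroup G)) : Minimal G := by
  intro σ h1 h2 hle
  let e : (⊤ : Subgroup G) ≃* G := Subgroup.topEquiv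
  have h3 : @IsTopologicalGroup (⊤ : Subgroup G) (TopologicalSpace.induced e σ) _ := by
    let _ : TopologicalSpace G := σ
    exact topologicalGroup_induced e
  have h4 : @T2Space (⊤ : Subgroup G) (TopologicalSpace.induced e σ) := by
    let _ : TopologicalSpace G := σ
    let _ : TopologicalSpace (⊤ : Subgroup G) := TopologicalSpace.induced e σ
    exact T2Space.of_injective_continuous e.injective continuous_induced_dom
  have h5 := h (TopologicalSpace.induced e σ) h3 h4 (induced_mono hle)
  have h7 : (e : (⊤ : Subgroup G) → G) ∘ e.symm = id := by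
    funext x
    exact e.apply_symm_apply x
  have h8 : ∀ ρ : TopologicalSpace G,
      TopologicalSpace.induced e.symm (TopologicalSpace.induced e ρ) = ρ := by
    intro ρ
    rw [induced_compose, h7]
    exact induced_id
  rw [← h8 σ, h5]
  exact h8 τ

/-- For every sufficiently large prime `p` and every infinite set `I` there is a Hausdorff
topological group `G` which is hereditarily minimal, in particular c-minimal, and has a compact open
normal subgroup `N` such that the discrete group `G / N` is not hereditarily minimal, and not even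
minimal. Here `N` is the centre of `G` and topologically isomorphic to `ℤ_p`, and `G / N` has the
cardinality of `I`. -/
theorem result :
    ∃ p0 : ℕ, ∀ (p : ℕ) [Fact p.Prime], p0 ≤ p → ∀ (I : Type) [Infinite I],
      ∃ (G : Type) (_ : Group G) (_ : TopologicalSpace G) (N : Subgroup G) (_ : N.Normal),
        IsTopologicalGroup G ∧ T2Space G ∧ CMinimal G ∧ HereditarilyMinimal G ∧
        IsCompact (N : Set G) ∧ IsOpen (N : Set G) ∧ DiscreteTopology (G ⧸ N) ∧
        ¬ HereditarilyMinimal (G ⧸ N) ∧ ¬ Minimal (G ⧸ N) ∧ N = Subgroup.center G ∧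
        Nonempty (Multiplicative ℤ_[p] ≃ₜ* N) ∧ Nonempty (G ⧸ N ≃ I) := by
  obtain ⟨p0, h⟩ := Pool.Agent.TH54.BU.burnside
  refine ⟨p0, fun p hp hle I _ => ?_⟩
  have hB : Burn p := h p hp.out hle
  obtain ⟨M, hG, hTop, hTG, hT2, htf, hopen, hZ, ⟨e⟩, -⟩ := exists_ext_gen hB I
  have hinf : Infinite (FreeGroup I ⧸ powSub (FreeGroup I) p) := infinite_burn hp.out hB I
  have hinf' : Infinite (M ⧸ Subgroup.center M) := e.toEquiv.infinite_iff.2 hinf
  have hexp : ∃ n : ℕ, 0 < n ∧ ∀ x : M ⧸ Subgroup.center M, x ^ n = 1 := by
    refine ⟨p, hp.out.pos, fun x => ?_⟩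
    apply e.injective
    rw [map_pow, map_one]
    exact Pool.Agent.Q87.TM.pow_eq_one _
  obtain ⟨h1, h2, h3, h4, h5, -⟩ :=
    bounded_exponent_extensions p M htf hopen hZ hexp hinf'
  obtain ⟨f⟩ := card_burn hB I
  let π : M →* FreeGroup I ⧸ powSub (FreeGroup I) p :=
    e.toMonoidHom.comp (QuotientGroup.mk' (Subgroup.center M))
  have hπs : Function.Surjective π := e.surjective.comp (QuotientGroup.mk'_surjective _)
  have hπk : π.ker = Subgroup.center M := by
    ext g
    rw [MonoidHom.mem_ker]
    show e (g : M ⧸ Subgroup.center M) = 1 ↔ _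
    rw [← QuotientGroup.eq_one_iff, ← map_one e, e.injective.eq_iff]
  have hnm : ¬ Minimal (M ⧸ Subgroup.center M) := fun hc =>
    Pool.Agent.Q87.TM.quot_not_minimal hp.out.one_lt (Subgroup.center M) hopen π hπs hπk hc
  have hcomp : IsCompact (Subgroup.center M : Set M) := by
    obtain ⟨c⟩ := hZ
    have : CompactSpace (Multiplicative ℤ_[p]) :=
      inferInstanceAs (CompactSpace ℤ_[p])
    rw [isCompact_iff_compactSpace]
    exact c.toHomeomorph.compactSpace
  exact ⟨M, hG, hTop, Subgroup.center M, inferInstance, hTG, hT2, fun H _ => h1 H, h1, hcomp,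
    hopen, QuotientGroup.discreteTopology hopen, fun hc => hnm (minimal_of_top (hc ⊤)), hnm, rfl,
    hZ, ⟨e.toEquiv.trans f⟩⟩

end Pool.Agent.Results.MP_e69082_gt.QuotientNotMinimal
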